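import Mathlib

/-!
# `Q`-points give `B`-sets

A `B`-set is a set `E` in the plane which is not `σ`-finite for the one-dimensional Hausdorff
measure `H¹` although `H_φ(E) = 0` for every superlinear gauge `φ`.

Let `C_n` be the set of the points at distance at most `4^(-n)` from the grid
`2^(-n) ℤ² ∩ [0,1]²`: about `4^n` discs of radius `4^(-n)`, so the total diameter is bounded while
the mesh tends to zero.  For a filter `F` on `ℕ` let `E_F = {x | {n | x ∈ C_n} ∈ F}`.

**Theorem.** If `F` is a `Q`-filter (for instance a `Q`-point, for instance a Ramsey ultrafilter)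
then `E_F` is a `B`-set.

* `H_φ(E_F) = 0` because `E_F ⊆ ⋃_{n ∈ B} C_n` for every `B ∈ F` and `B` may be taken so sparse
  that the `φ`-costs `4^n φ(2 · 4^(-n)) → 0` are summable with small sum over `B`.
* Suppose `E_F = ⋃ M_k` with `H¹(M_k) < ∞`.  The measures `H¹|M_k` and all purely atomic finite
  measures are singular with respect to Lebesgue measure, so at almost every point `x` the mass of
  `B(x, 5 · 2^(-m))` is `o(4^(-m))`.  Hence, given finitely many of the `M_k`, a disc of radius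
  `4^(-n)` of `C_n` and a family `P` of discs that covers the part of these `M_k` in the given disc
  and has small total radius, for **all** large `m` there is a disc of radius `4^(-m)` of `C_m`
  inside the given one for which the same holds relative to the new radius, with one more `M_k`.
  There are only finitely many states of this construction up to level `m`; thus for every
  sufficiently sparse sequence `n_0 < n_1 < ...` there is a point in `⋂ C_(n_i)` outside all `M_k`.
  A `Q`-filter contains the range of such a sequence, so this point is in `E_F`: a contradiction.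
-/

open MeasureTheory Set Filter Topology Metric
open scoped ENNReal NNReal

namespace Pool.Agent.Results.MP_820503_lc.QPointBSet

/-- The Euclidean plane. -/
abbrev Plane : Type := EuclideanSpace ℝ (Fin 2)

/-- Gauge functions, as in the problem: nondecreasing on `[0,∞)`, zero at `0`, positive on
`(0,∞)`. -/
structure IsGauge (φ : ℝ → ℝ) : Prop where
  mono : ∀ s t : ℝ, 0 ≤ s → s ≤ t → φ s ≤ φ t
  zero : φ 0 = 0
  pos : ∀ t : ℝ, 0 < t → 0 < φ t

/-- A gauge is superlinear if `φ(t)/t → 0` as `t → 0+`. -/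
def IsSuperlinear (φ : ℝ → ℝ) : Prop :=
  Tendsto (fun t : ℝ => φ t / t) (𝓝[>] 0) (𝓝 0)

/-- The infimum of `∑ φ(diam U_i)` over countable covers of `E` by sets of diameter `< δ`. -/
noncomputable def preH (φ : ℝ → ℝ) (δ : ℝ) (E : Set Plane) : ℝ≥0∞ :=
  ⨅ (U : ℕ → Set Plane) (_ : E ⊆ ⋃ i, U i)
    (_ : ∀ i, Bornology.IsBounded (U i) ∧ Metric.diam (U i) < δ),
    ∑' i, ENNReal.ofReal (φ (Metric.diam (U i)))

/-- The Hausdorff measure with gauge `φ`: the limit (equivalently the supremum) of `preH φ δ E`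
as `δ → 0+`. -/
noncomputable def hausdorffGauge (φ : ℝ → ℝ) (E : Set Plane) : ℝ≥0∞ :=
  ⨆ (δ : ℝ) (_ : 0 < δ), preH φ δ E

/-- `E` is `σ`-finite in dimension one. -/
def IsSigmaFiniteDimOne (E : Set Plane) : Prop :=
  ∃ A : ℕ → Set Plane, E = ⋃ i, A i ∧ ∀ i, hausdorffGauge (fun t => t) (A i) < ∞

/-- `B`-sets, as in the problem. -/
structure IsBSet (E : Set Plane) : Prop where
  not_sigmaFinite : ¬ IsSigmaFiniteDimOne E
  null : ∀ φ : ℝ → ℝ, IsGauge φ → IsSuperlinear φ → hausdorffGauge φ E = 0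

/-- `Q`-filters on the natural numbers: proper filters containing all cofinite sets such that
every finite-to-one function is injective on a set in the filter.  An ultrafilter with this
property is a `Q`-point; every Ramsey ultrafilter is a `Q`-point. -/
structure IsQFilter (F : Filter ℕ) : Prop where
  neBot : F.NeBot
  le_cofinite : F ≤ cofinite
  inj : ∀ f : ℕ → ℕ, (∀ m, (f ⁻¹' {m}).Finite) → ∃ B ∈ F, InjOn f B

/-- The grid point `(a / 2^n, b / 2^n)`. -/
noncomputable def gridPoint (n a b : ℕ) : Plane :=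
  !₂[(a : ℝ) / 2 ^ n, (b : ℝ) / 2 ^ n]

/-- The points at distance at most `4^(-n)` from the grid `2^(-n) ℤ² ∩ [0,1]²`. -/
def nearGrid (n : ℕ) : Set Plane :=
  {x | ∃ a b : ℕ, a ≤ 2 ^ n ∧ b ≤ 2 ^ n ∧ dist x (gridPoint n a b) ≤ (1 / 4) ^ n}

/-- The set of the points which are close to the grid of mesh `2^(-n)` for almost all `n` in the
sense of the filter. -/
def qSet (F : Filter ℕ) : Set Plane :=
  {x | {n : ℕ | x ∈ nearGrid n} ∈ F}

/-- The definition of `hausdorffGauge` as a supremum agrees with the limit as `δ → 0+`. -/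
theorem tendsto_preH (φ : ℝ → ℝ) (E : Set Plane) :
    Tendsto (fun δ => preH φ δ E) (𝓝[>] 0) (𝓝 (hausdorffGauge φ E)) := by
  have hanti : ∀ δ δ' : ℝ, δ ≤ δ' → preH φ δ' E ≤ preH φ δ E := by
    intro δ δ' h
    unfold preH
    refine le_iInf fun U => le_iInf fun hU => le_iInf fun hd => ?_
    exact iInf_le_of_le U (iInf_le_of_le hU (iInf_le_of_le
      (fun i => ⟨(hd i).1, (hd i).2.trans_le h⟩) le_rfl))
  rw [tendsto_order]
  constructor
  · intro a ha
    unfold hausdorffGauge at ha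
    rw [lt_iSup_iff] at ha
    obtain ⟨δ, hδ⟩ := ha
    rw [lt_iSup_iff] at hδ
    obtain ⟨h0, hδ⟩ := hδ
    have : Ioo (0 : ℝ) δ ∈ 𝓝[>] (0 : ℝ) := Ioo_mem_nhdsGT h0
    filter_upwards [this] with x hx
    exact hδ.trans_le (hanti _ _ hx.2.le)
  · intro a ha
    filter_upwards [self_mem_nhdsWithin] with x hx
    refine lt_of_le_of_lt ?_ ha
    unfold hausdorffGauge
    exact le_iSup₂ (f := fun (δ : ℝ) (_ : 0 < δ) => preH φ δ E) x hx

/-- Fast enumerations from a `Q`-filter. -/
theorem exists_fast {F : Filter ℕ} (hF : IsQFilter F) (f : ℕ → ℕ) (n0 : ℕ) :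
    ∃ e : ℕ → ℕ, StrictMono e ∧ range e ∈ F ∧ n0 ≤ e 0 ∧ ∀ i, f (e i) ≤ e (i + 1) := by
  classical
  let g : ℕ → ℕ := fun n => (Finset.range (n + 1)).sup f + n + 1
  have hgf : ∀ m n, m ≤ n → f m ≤ g n := by
    intro m n h
    have : f m ≤ (Finset.range (n + 1)).sup f :=
      Finset.le_sup (f := f) (Finset.mem_range.2 (by omega))
    show f m ≤ (Finset.range (n + 1)).sup f + n + 1
    omega
  have hgn : ∀ n, n < g n := by
    intro n
    show n < (Finset.range (n + 1)).sup f + n + 1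
    omega
  obtain ⟨a, ha0, has⟩ : ∃ a : ℕ → ℕ, a 0 = 0 ∧ ∀ i, a (i + 1) = g (a i) :=
    ⟨fun i => Nat.rec 0 (fun _ x => g x) i, rfl, fun _ => rfl⟩
  have hamono : StrictMono a := strictMono_nat_of_lt_succ fun i => by rw [has]; exact hgn _
  have hai : ∀ i, i ≤ a i := fun i => hamono.le_apply
  let h : ℕ → ℕ := fun n => Nat.findGreatest (fun i => a i ≤ n) n
  have hh1 : ∀ n, a (h n) ≤ n := by
    intro n
    exact Nat.findGreatest_spec (P := fun i => a i ≤ n) (Nat.zero_le n) (by simp [ha0])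
  have hh2 : ∀ n j, a j ≤ n → j ≤ h n := by
    intro n j hj
    exact Nat.le_findGreatest ((hai j).trans hj) hj
  have hh3 : ∀ n, n < a (h n + 1) := by
    intro n
    by_contra hcon
    have := hh2 n (h n + 1) (not_lt.1 hcon)
    omega
  have hfin : ∀ j, {n | h n ≤ j}.Finite := by
    intro j
    refine (finite_lt_nat (a (j + 1))).subset ?_
    intro n hn
    show n < a (j + 1)
    have hnj : h n + 1 ≤ j + 1 := Nat.succ_le_succ hn
    exact (hh3 n).trans_le (hamono.monotone hnj)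
  obtain ⟨B0, hB0, hB0i⟩ := hF.inj (fun n => h n / 2) (by
    intro m
    refine (hfin (2 * m + 1)).subset ?_
    intro n hn
    have : h n / 2 = m := hn
    show h n ≤ 2 * m + 1
    omega)
  obtain ⟨B1, hB1, hB1i⟩ := hF.inj (fun n => (h n + 1) / 2) (by
    intro m
    refine (hfin (2 * m + 1)).subset ?_
    intro n hn
    have : (h n + 1) / 2 = m := hn
    show h n ≤ 2 * m + 1
    omega)
  have hB2 : {n | n0 ≤ n} ∈ F := by
    apply hF.le_cofinite
    rw [mem_cofinite]
    refine (finite_lt_nat n0).subset ?_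
    intro n hn
    have : ¬ n0 ≤ n := hn
    show n < n0
    omega
  let B : Set ℕ := B0 ∩ B1 ∩ {n | n0 ≤ n}
  have hB : B ∈ F := inter_mem (inter_mem hB0 hB1) hB2
  have hBinf : B.Infinite := by
    intro hfinB
    have h1 : Bᶜ ∈ F := by
      apply hF.le_cofinite
      rw [mem_cofinite, compl_compl]
      exact hfinB
    have h2 : B ∩ Bᶜ ∈ F := inter_mem hB h1
    rw [inter_compl_self] at h2
    exact hF.neBot.ne (empty_mem_iff_bot.1 h2)
  have : Infinite B := hBinf.to_subtype
  let e : ℕ → ℕ := fun i => Nat.orderEmbeddingOfSet B i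
  have hemono : StrictMono e := (Nat.orderEmbeddingOfSet B).strictMono
  have herange : range e = B := Nat.orderEmbeddingOfSet_range B
  have heB : ∀ i, e i ∈ B := fun i => herange ▸ mem_range_self i
  refine ⟨e, hemono, herange ▸ hB, (heB 0).2, ?_⟩
  intro i
  have hlt : e i < e (i + 1) := hemono (Nat.lt_succ_self i)
  have hpq : h (e i) ≤ h (e (i + 1)) := hh2 _ _ ((hh1 _).trans hlt.le)
  have hq : h (e i) + 2 ≤ h (e (i + 1)) := by
    by_contra hcon
    have hcases : h (e i) / 2 = h (e (i + 1)) / 2 ∨ (h (e i) + 1) / 2 = (h (e (i + 1)) + 1) / 2 := by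
      omega
    rcases hcases with h1 | h1
    · exact hlt.ne (hB0i (heB i).1.1 (heB (i + 1)).1.1 h1)
    · exact hlt.ne (hB1i (heB i).1.2 (heB (i + 1)).1.2 h1)
  calc f (e i) ≤ g (a (h (e i) + 1)) := hgf _ _ (hh3 _).le
    _ = a (h (e i) + 2) := (has _).symm
    _ ≤ a (h (e (i + 1))) := hamono.monotone hq
    _ ≤ e (i + 1) := hh1 _

theorem qSet_subset {F : Filter ℕ} (hF : IsQFilter F) {e : ℕ → ℕ} (he : range e ∈ F) :
    qSet F ⊆ ⋃ i, nearGrid (e i) := by
  intro x hx
  have h : {n : ℕ | x ∈ nearGrid n} ∩ range e ∈ F := inter_mem hx he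
  have := hF.neBot
  obtain ⟨n, hn, i, rfl⟩ := Filter.nonempty_of_mem h
  exact mem_iUnion.2 ⟨i, hn⟩

theorem tendsto_cost {φ : ℝ → ℝ} (hs : IsSuperlinear φ) :
    Tendsto (fun k : ℕ => ((2 : ℝ) ^ k + 1) ^ 2 * φ (2 * (1 / 4) ^ k)) atTop (𝓝 0) := by
  have h1 : Tendsto (fun k : ℕ => (2 : ℝ) * (1 / 4) ^ k) atTop (𝓝[>] 0) := by
    rw [tendsto_nhdsWithin_iff]
    constructor
    · have := (tendsto_pow_atTop_nhds_zero_of_lt_one (r := (1 / 4 : ℝ)) (by norm_num)
        (by norm_num)).const_mul 2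
      simpa using this
    · exact Eventually.of_forall fun n => by
        show (0 : ℝ) < 2 * (1 / 4) ^ n
        positivity
  have h2 := hs.comp h1
  have h3 : Tendsto (fun k : ℕ => (((1 : ℝ) + (1 / 2) ^ k) ^ 2 * 2) *
      (φ (2 * (1 / 4) ^ k) / (2 * (1 / 4) ^ k))) atTop (𝓝 (((1 + 0) ^ 2 * 2) * 0)) := by
    refine Tendsto.mul ?_ h2
    have h4 := (tendsto_pow_atTop_nhds_zero_of_lt_one (r := (1 / 2 : ℝ)) (by norm_num)
        (by norm_num))
    exact ((h4.const_add 1).pow 2).mul_const 2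
  rw [mul_zero] at h3
  refine h3.congr fun k => ?_
  have h5 : (1 / 4 : ℝ) ^ k = ((2 : ℝ) ^ k)⁻¹ ^ 2 := by
    rw [← inv_pow, ← pow_mul, mul_comm k 2, pow_mul]; norm_num
  have h6 : (1 / 2 : ℝ) ^ k = ((2 : ℝ) ^ k)⁻¹ := by
    rw [← inv_pow]; norm_num
  have h7 : (2 : ℝ) ^ k ≠ 0 := by positivity
  rw [h5, h6]
  field_simp

theorem null_part {F : Filter ℕ} (hF : IsQFilter F) {φ : ℝ → ℝ} (hφ : IsGauge φ)
    (hs : IsSuperlinear φ) : hausdorffGauge φ (qSet F) = 0 := by
  classical
  unfold hausdorffGauge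
  simp only [ENNReal.iSup_eq_zero]
  intro δ hδ
  have key : ∀ ε : ℝ, 0 < ε → preH φ δ (qSet F) ≤ ENNReal.ofReal ε := by
    intro ε hε
    set c : ℕ → ℝ := fun k => ((2 : ℝ) ^ k + 1) ^ 2 * φ (2 * (1 / 4) ^ k) with hc
    have hc0 : Tendsto c atTop (𝓝 0) := tendsto_cost hs
    have hN : ∀ η : ℝ, 0 < η → ∃ N : ℕ, ∀ k, N ≤ k → c k ≤ η := by
      intro η hη
      have := hc0.eventually (gt_mem_nhds hη)
      obtain ⟨N, hN⟩ := eventually_atTop.1 this
      exact ⟨N, fun k hk => (hN k hk).le⟩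
    choose! N hN using hN
    have hsmall : ∃ n1 : ℕ, ∀ k, n1 ≤ k → (2 : ℝ) * (1 / 4) ^ k < δ := by
      have h1 := (tendsto_pow_atTop_nhds_zero_of_lt_one (r := (1 / 4 : ℝ)) (by norm_num)
        (by norm_num)).const_mul 2
      rw [mul_zero] at h1
      have := h1.eventually (gt_mem_nhds hδ)
      obtain ⟨N, hN⟩ := eventually_atTop.1 this
      exact ⟨N, fun k hk => hN k hk⟩
    obtain ⟨n1, hn1⟩ := hsmall
    obtain ⟨e, hemono, heF, he0, hef⟩ := exists_fast hF (fun n => N (ε / 2 ^ (n + 2)))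
      (max (N (ε / 2)) n1)
    have hce : ∀ i, c (e i) ≤ ε / 2 ^ (i + 1) := by
      intro i
      cases i with
      | zero =>
        have := hN (ε / 2) (by positivity) (e 0) ((le_max_left _ _).trans he0)
        simpa using this
      | succ i =>
        have h1 := hN (ε / 2 ^ (e i + 2)) (by positivity) (e (i + 1)) (hef i)
        refine h1.trans ?_
        have h2 : i ≤ e i := hemono.le_apply
        have h3 : (2 : ℝ) ^ (i + 1 + 1) ≤ 2 ^ (e i + 2) :=
          pow_le_pow_right₀ (by norm_num) (by omega)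
        exact div_le_div_of_nonneg_left hε.le (by positivity) h3
    have hdiam : ∀ i, (2 : ℝ) * (1 / 4) ^ (e i) < δ := fun i =>
      hn1 _ (((le_max_right _ _).trans he0).trans (hemono.monotone (Nat.zero_le i)))
    let ι : Type := Σ i : ℕ, Fin (2 ^ e i + 1) × Fin (2 ^ e i + 1)
    let t : ι → Set Plane := fun j => closedBall (gridPoint (e j.1) j.2.1 j.2.2) ((1 / 4) ^ e j.1)
    have hinf : Infinite ι := by
      refine Infinite.of_injective (fun i : ℕ => (⟨i, 0, 0⟩ : ι)) ?_
      intro i j hij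
      exact congrArg Sigma.fst hij
    obtain ⟨hden⟩ := nonempty_denumerable ι
    let E : ι ≃ ℕ := hden.eqv
    have hdj : ∀ j : ι, Metric.diam (t j) ≤ 2 * (1 / 4) ^ e j.1 := fun j =>
      diam_closedBall (by positivity)
    have hcover : qSet F ⊆ ⋃ n, t (E.symm n) := by
      intro x hx
      obtain ⟨i, hi⟩ := mem_iUnion.1 (qSet_subset hF heF hx)
      obtain ⟨a, b, ha, hb, hd⟩ := hi
      refine mem_iUnion.2 ⟨E ⟨i, ⟨a, by omega⟩, ⟨b, by omega⟩⟩, ?_⟩
      rw [Equiv.symm_apply_apply]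
      exact hd
    have hpre : preH φ δ (qSet F) ≤ ∑' n, ENNReal.ofReal (φ (Metric.diam (t (E.symm n)))) := by
      unfold preH
      exact iInf_le_of_le (fun n => t (E.symm n)) (iInf_le_of_le hcover (iInf_le_of_le
        (fun n => ⟨isBounded_closedBall, (hdj _).trans_lt (hdiam _)⟩) le_rfl))
    refine hpre.trans ?_
    have h1 : ∑' n, ENNReal.ofReal (φ (Metric.diam (t (E.symm n)))) =
        ∑' j : ι, ENNReal.ofReal (φ (Metric.diam (t j))) :=
      E.symm.tsum_eq (fun j => ENNReal.ofReal (φ (Metric.diam (t j))))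
    rw [h1]
    calc ∑' j : ι, ENNReal.ofReal (φ (Metric.diam (t j)))
        ≤ ∑' j : ι, ENNReal.ofReal (φ (2 * (1 / 4) ^ e j.1)) := by
          refine ENNReal.tsum_le_tsum fun j => ENNReal.ofReal_le_ofReal ?_
          exact hφ.mono _ _ diam_nonneg (hdj j)
      _ = ∑' i : ℕ, ∑' _p : Fin (2 ^ e i + 1) × Fin (2 ^ e i + 1),
            ENNReal.ofReal (φ (2 * (1 / 4) ^ e i)) :=
          ENNReal.tsum_sigma' (fun j : ι => ENNReal.ofReal (φ (2 * (1 / 4) ^ e j.1)))
      _ = ∑' i : ℕ, ENNReal.ofReal (c (e i)) := by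
          refine tsum_congr fun i => ?_
          rw [tsum_fintype, Finset.sum_const, Finset.card_univ, Fintype.card_prod, Fintype.card_fin,
            nsmul_eq_mul, hc]
          simp only
          rw [ENNReal.ofReal_mul (by positivity)]
          congr 1
          rw [← ENNReal.ofReal_natCast]
          congr 1
          push_cast
          ring
      _ ≤ ∑' i : ℕ, ENNReal.ofReal (ε / 2 ^ (i + 1)) :=
          ENNReal.tsum_le_tsum fun i => ENNReal.ofReal_le_ofReal (hce i)
      _ = ENNReal.ofReal ε := by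
          have hsum : HasSum (fun i : ℕ => ε / 2 ^ (i + 1)) ε := by
            have := hasSum_geometric_two' ε
            refine this.congr_fun fun i => ?_
            rw [pow_succ]
            field_simp
          rw [← ENNReal.ofReal_tsum_of_nonneg (fun i => by positivity) hsum.summable, hsum.tsum_eq]
  refine le_antisymm (ENNReal.le_of_forall_pos_le_add fun ε hε _ => ?_) bot_le
  rw [zero_add]
  simpa using key ε hε

/-- Mathlib's one-dimensional Hausdorff measure is at most ours (they are equal). -/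
theorem hausdorffMeasure_le (M : Set Plane) : μH[1] M ≤ hausdorffGauge (fun t => t) M := by
  rw [Measure.hausdorffMeasure_apply]
  refine iSup₂_le fun r hr => ?_
  set δ : ℝ := (min r 1).toReal with hδ
  have hr1 : min r 1 ≠ ∞ := ne_top_of_le_ne_top ENNReal.one_ne_top (min_le_right _ _)
  have hδ0 : 0 < δ := ENNReal.toReal_pos (by simpa using hr.ne') hr1
  refine le_trans ?_ (le_iSup₂ (f := fun (δ : ℝ) (_ : 0 < δ) => preH (fun t => t) δ M) δ hδ0)
  unfold preH
  refine le_iInf fun U => le_iInf fun hU => le_iInf fun hd => ?_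
  have hedi : ∀ i, ediam (U i) = ENNReal.ofReal (Metric.diam (U i)) := fun i => by
    rw [Metric.diam, ENNReal.ofReal_toReal (hd i).1.ediam_ne_top]
  refine iInf_le_of_le U (iInf_le_of_le hU (iInf_le_of_le ?_ ?_))
  · intro i
    rw [hedi]
    refine (ENNReal.ofReal_le_ofReal (hd i).2.le).trans ?_
    rw [hδ, ENNReal.ofReal_toReal hr1]
    exact min_le_left _ _
  · refine ENNReal.tsum_le_tsum fun i => iSup_le fun _ => ?_
    rw [ENNReal.rpow_one, hedi]

theorem volume_eq_zero_of_hausdorffMeasure_lt_top {M : Set Plane} (hM : μH[1] M < ∞) :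
    volume M = 0 := by
  have h2 : μH[2] M = 0 := by
    rcases Measure.hausdorffMeasure_zero_or_top (show (1 : ℝ) < 2 by norm_num) M with h | h
    · exact h
    · exact absurd h hM.ne
  have hL : LipschitzWith 1 (WithLp.ofLp : Plane → (Fin 2 → ℝ)) := PiLp.lipschitzWith_ofLp 2 _
  have h3 := hL.hausdorffMeasure_image_le (d := 2) (by norm_num) M
  rw [h2, mul_zero] at h3
  have h4 : (volume : Measure (Fin 2 → ℝ)) (WithLp.ofLp '' M) = 0 := by
    have h5 := hausdorffMeasure_pi_real (ι := Fin 2)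
    rw [← h5]
    simpa using h3
  have h6 := (EuclideanSpace.volume_preserving_symm_measurableEquiv_toLp (Fin 2)
    ).measure_preimage_equiv (WithLp.ofLp '' M)
  rw [h4] at h6
  rw [← h6]
  congr 1
  exact (preimage_image_eq M (WithLp.ofLp_injective 2)).symm

theorem mutuallySingular_restrict {M : Set Plane} (hM : μH[1] M < ∞) :
    (μH[1] : Measure Plane).restrict M ⟂ₘ volume := by
  have h0 := volume_eq_zero_of_hausdorffMeasure_lt_top hM
  refine ⟨(toMeasurable volume M)ᶜ, (measurableSet_toMeasurable _ _).compl, ?_, ?_⟩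
  · rw [Measure.restrict_apply (measurableSet_toMeasurable _ _).compl]
    have : (toMeasurable volume M)ᶜ ∩ M = ∅ := by
      ext x
      simp only [mem_inter_iff, mem_compl_iff, mem_empty_iff_false, iff_false, not_and]
      exact fun h1 h2 => h1 (subset_toMeasurable _ _ h2)
    rw [this, measure_empty]
  · rw [compl_compl, measure_toMeasurable, h0]

theorem ae_small {ρ : Measure Plane} [IsFiniteMeasure ρ] (hρ : ρ ⟂ₘ volume) :
    ∀ᵐ x ∂(volume : Measure Plane), ∀ κ : ℝ, 0 < κ → ∀ᶠ m : ℕ in atTop,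
      ρ (closedBall x (5 * (1 / 2) ^ m)) < ENNReal.ofReal (κ * (1 / 4) ^ m) := by
  have h := VitaliFamily.ae_eventually_measure_zero_of_singular
    (Besicovitch.vitaliFamily (volume : Measure Plane)) hρ
  filter_upwards [h] with x hx
  intro κ hκ
  have h1 : Tendsto (fun m : ℕ => (5 : ℝ) * (1 / 2) ^ m) atTop (𝓝[>] 0) := by
    rw [tendsto_nhdsWithin_iff]
    constructor
    · have := (tendsto_pow_atTop_nhds_zero_of_lt_one (r := (1 / 2 : ℝ)) (by norm_num)
        (by norm_num)).const_mul 5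
      simpa using this
    · exact Eventually.of_forall fun n => by
        show (0 : ℝ) < 5 * (1 / 2) ^ n
        positivity
  have h2 := (hx.comp (Besicovitch.tendsto_filterAt volume x)).comp h1
  set v : ℝ≥0∞ := volume (ball (0 : Plane) 1) with hv
  have hv0 : 0 < v := measure_ball_pos _ _ (by norm_num)
  have hvt : v ≠ ∞ := measure_ball_lt_top.ne
  have hθ : 0 < ENNReal.ofReal (κ / 25) / v :=
    ENNReal.div_pos (by simpa using (by positivity : 0 < κ / 25)) hvt
  filter_upwards [h2.eventually (gt_mem_nhds hθ)] with m hm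
  simp only [Function.comp_apply] at hm
  have hvol : volume (closedBall x (5 * (1 / 2) ^ m)) = ENNReal.ofReal (25 * (1 / 4) ^ m) * v := by
    rw [Measure.addHaar_closedBall _ _ (by positivity), finrank_euclideanSpace_fin]
    congr 2
    rw [mul_pow, ← pow_mul, mul_comm m 2, pow_mul]
    norm_num
  have hvol0 : volume (closedBall x (5 * (1 / 2) ^ m)) ≠ 0 := by
    rw [hvol]
    refine mul_ne_zero ?_ hv0.ne'
    simp
  have hvolt : volume (closedBall x (5 * (1 / 2) ^ m)) ≠ ∞ := measure_closedBall_lt_top.ne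
  rw [ENNReal.div_lt_iff (Or.inl hvol0) (Or.inl hvolt), hvol] at hm
  refine hm.trans_le (le_of_eq ?_)
  rw [mul_comm (ENNReal.ofReal (25 * (1 / 4) ^ m)) v, ← mul_assoc, ENNReal.div_mul_cancel hv0.ne' hvt,
    ← ENNReal.ofReal_mul (by positivity)]
  congr 1
  ring


/-- Every point of the unit square is close to a grid point. -/
theorem exists_gridPoint (m : ℕ) {x : Plane} (hx : ∀ i, 0 ≤ x i ∧ x i ≤ 1) :
    ∃ a b : ℕ, a ≤ 2 ^ m ∧ b ≤ 2 ^ m ∧ dist x (gridPoint m a b) ≤ 2 * (1 / 2) ^ m := by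
  have h2 : (0 : ℝ) < 2 ^ m := by positivity
  have hfl : ∀ i, ⌊(2 : ℝ) ^ m * x i⌋₊ ≤ 2 ^ m := by
    intro i
    apply Nat.floor_le_of_le
    push_cast
    have := (hx i).2
    nlinarith
  have hd : ∀ i, |x i - (⌊(2 : ℝ) ^ m * x i⌋₊ : ℝ) / 2 ^ m| ≤ (1 / 2) ^ m := by
    intro i
    have h3 : 0 ≤ (2 : ℝ) ^ m * x i := mul_nonneg h2.le (hx i).1
    have h4 := Nat.floor_le h3
    have h5 := Nat.lt_floor_add_one ((2 : ℝ) ^ m * x i)
    have h6 : (1 / 2 : ℝ) ^ m = 1 / 2 ^ m := by rw [one_div_pow]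
    rw [h6, abs_le]
    constructor
    · rw [le_sub_iff_add_le, ← sub_nonneg]
      have : x i - (-(1 / 2 ^ m) + (⌊(2 : ℝ) ^ m * x i⌋₊ : ℝ) / 2 ^ m)
        = (2 ^ m * x i - ⌊(2 : ℝ) ^ m * x i⌋₊ + 1) / 2 ^ m := by field_simp; ring
      rw [this]
      apply div_nonneg _ h2.le
      linarith
    · rw [sub_le_iff_le_add, ← sub_nonneg]
      have : (1 / 2 ^ m) + (⌊(2 : ℝ) ^ m * x i⌋₊ : ℝ) / 2 ^ m - x i
        = (⌊(2 : ℝ) ^ m * x i⌋₊ + 1 - 2 ^ m * x i) / 2 ^ m := by field_simp; ring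
      rw [this]
      apply div_nonneg _ h2.le
      linarith
  refine ⟨_, _, hfl 0, hfl 1, ?_⟩
  rw [EuclideanSpace.dist_eq, Fin.sum_univ_two]
  have h0 := hd 0
  have h1 := hd 1
  have hp : (0 : ℝ) < (1 / 2) ^ m := by positivity
  apply Real.sqrt_le_iff.2 ⟨by positivity, ?_⟩
  have e0 : dist (x.ofLp 0) ((gridPoint m ⌊(2 : ℝ) ^ m * x 0⌋₊ ⌊(2 : ℝ) ^ m * x 1⌋₊).ofLp 0) =
      |x 0 - (⌊(2 : ℝ) ^ m * x 0⌋₊ : ℝ) / 2 ^ m| := by
    simp [gridPoint, Real.dist_eq]
  have e1 : dist (x.ofLp 1) ((gridPoint m ⌊(2 : ℝ) ^ m * x 0⌋₊ ⌊(2 : ℝ) ^ m * x 1⌋₊).ofLp 1) =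
      |x 1 - (⌊(2 : ℝ) ^ m * x 1⌋₊ : ℝ) / 2 ^ m| := by
    simp [gridPoint, Real.dist_eq]
  rw [e0, e1]
  nlinarith [abs_nonneg (x 0 - (⌊(2 : ℝ) ^ m * x 0⌋₊ : ℝ) / 2 ^ m),
    abs_nonneg (x 1 - (⌊(2 : ℝ) ^ m * x 1⌋₊ : ℝ) / 2 ^ m)]

/-- The weight of a disc if it meets `t`. -/
noncomputable def wt (t : Set Plane) (p : Plane × ℝ) : ℝ≥0∞ :=
  open Classical in if (closedBall p.1 p.2 ∩ t).Nonempty then ENNReal.ofReal p.2 else 0

theorem wt_le (t : Set Plane) (p : Plane × ℝ) : wt t p ≤ ENNReal.ofReal p.2 := by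
  unfold wt
  split_ifs
  · exact le_rfl
  · exact bot_le

theorem wt_mono {s t : Set Plane} (h : s ⊆ t) (p : Plane × ℝ) : wt s p ≤ wt t p := by
  unfold wt
  split_ifs with h1 h2
  · exact le_rfl
  · exact absurd (h1.mono (inter_subset_inter_right _ h)) h2
  · exact bot_le
  · exact le_rfl

/-- The invariant of the construction: the discs in `P` meeting the current disc
`closedBall g (4^(-n))` have total radius less than a quarter of its radius. -/
structure Inv (n : ℕ) (g : Plane) (P : Set (Plane × ℝ)) : Prop where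
  pos : ∀ p ∈ P, 0 < p.2
  count : P.Countable
  fin : ∑' p : P, ENNReal.ofReal p.1.2 < ∞
  small : ∑' p : P, wt (closedBall g ((1 / 4) ^ n)) p.1 < ENNReal.ofReal ((1 / 4) ^ n / 4)
  box : ∀ x ∈ closedBall g ((1 / 4) ^ n), ∀ i, 0 ≤ x i ∧ x i ≤ 1


/-- The atomic measure giving mass `r` to the centre of each disc of radius `r` in `P`. -/
noncomputable def atomic (P : Set (Plane × ℝ)) : Measure Plane :=
  Measure.sum fun p : P => ENNReal.ofReal p.1.2 • Measure.dirac p.1.1

theorem atomic_univ (P : Set (Plane × ℝ)) :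
    atomic P univ = ∑' p : P, ENNReal.ofReal p.1.2 := by
  unfold atomic
  rw [Measure.sum_apply _ MeasurableSet.univ]
  simp

theorem atomic_singular {P : Set (Plane × ℝ)} (hP : P.Countable) :
    atomic P ⟂ₘ (volume : Measure Plane) := by
  have hC : (Prod.fst '' P).Countable := hP.image _
  refine ⟨(Prod.fst '' P)ᶜ, hC.measurableSet.compl, ?_, ?_⟩
  · unfold atomic
    rw [Measure.sum_apply _ hC.measurableSet.compl]
    simp only [ENNReal.tsum_eq_zero]
    intro p
    have : p.1.1 ∉ (Prod.fst '' P)ᶜ := fun h => h (mem_image_of_mem _ p.2)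
    simp [Measure.dirac_apply' _ hC.measurableSet.compl, this]
  · rw [compl_compl]
    exact hC.measure_zero volume

theorem tsum_wt_le_atomic {P : Set (Plane × ℝ)} {x : Plane} {g : Plane} {m : ℕ}
    (hg : dist x g ≤ 2 * (1 / 2) ^ m)
    (hx : ∀ p ∈ P, (closedBall p.1 p.2 ∩ closedBall g ((1 / 4) ^ m)).Nonempty →
      3 * p.2 < dist x p.1) :
    ∑' p : P, wt (closedBall g ((1 / 4) ^ m)) p.1 ≤ atomic P (closedBall x (5 * (1 / 2) ^ m)) := by
  unfold atomic
  rw [Measure.sum_apply _ measurableSet_closedBall]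
  refine ENNReal.tsum_le_tsum fun p => ?_
  unfold wt
  split_ifs with h
  · have h3 := hx p.1 p.2 h
    obtain ⟨y, hy1, hy2⟩ := h
    rw [mem_closedBall] at hy1 hy2
    have h4 : dist x p.1.1 ≤ dist x g + dist g y + dist y p.1.1 := dist_triangle4 _ _ _ _
    have h5 : dist g y ≤ (1 / 4) ^ m := by rw [dist_comm]; exact hy2
    have h6 : (1 / 4 : ℝ) ^ m ≤ (1 / 2) ^ m := pow_le_pow_left₀ (by norm_num) (by norm_num) m
    have h7 : (0 : ℝ) < (1 / 2) ^ m := by positivity
    have hmem : p.1.1 ∈ closedBall x (5 * (1 / 2) ^ m) := by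
      rw [mem_closedBall, dist_comm]
      linarith
    rw [Measure.smul_apply, Measure.dirac_apply' _ measurableSet_closedBall,
      indicator_of_mem hmem]
    simp
  · exact bot_le

theorem exists_center {n : ℕ} {g : Plane} {P : Set (Plane × ℝ)} (hI : Inv n g P)
    {ρ : Measure Plane} [IsFiniteMeasure ρ] (hρ : ρ ⟂ₘ volume) :
    ∃ x ∈ ball g ((1 / 4) ^ n),
      (∀ p ∈ P, (closedBall p.1 p.2 ∩ closedBall g ((1 / 4) ^ n)).Nonempty →
        3 * p.2 < dist x p.1) ∧
      ∀ κ : ℝ, 0 < κ → ∀ᶠ m : ℕ in atTop,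
        ρ (closedBall x (5 * (1 / 2) ^ m)) < ENNReal.ofReal (κ * (1 / 4) ^ m) := by
  classical
  set r : ℝ := (1 / 4) ^ n with hr
  have hr0 : 0 < r := by positivity
  set v : ℝ≥0∞ := volume (ball (0 : Plane) 1) with hv
  have hv0 : 0 < v := measure_ball_pos _ _ (by norm_num)
  have hvt : v ≠ ∞ := measure_ball_lt_top.ne
  have hcount : Countable P := hI.count.to_subtype
  let Bad : P → Set Plane := fun p =>
    if (closedBall p.1.1 p.1.2 ∩ closedBall g r).Nonempty then closedBall p.1.1 (3 * p.1.2) else ∅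
  have hBad : ∀ p : P, volume (Bad p) ≤
      ENNReal.ofReal (9 / 4 * r) * v * wt (closedBall g r) p.1 := by
    intro p
    by_cases h : (closedBall p.1.1 p.1.2 ∩ closedBall g r).Nonempty
    · have hwt : wt (closedBall g r) p.1 = ENNReal.ofReal p.1.2 := by
        unfold wt; rw [if_pos h]
      have hp0 : 0 < p.1.2 := hI.pos _ p.2
      have hle : p.1.2 ≤ r / 4 := by
        have h1 : wt (closedBall g r) p.1 ≤ ∑' p : P, wt (closedBall g r) p.1 :=
          ENNReal.le_tsum (f := fun p : P => wt (closedBall g r) p.1) p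
        have h2 := h1.trans_lt hI.small
        rw [hwt] at h2
        exact ((ENNReal.ofReal_lt_ofReal_iff (by positivity)).1 h2).le
      have hB : Bad p = closedBall p.1.1 (3 * p.1.2) := if_pos h
      rw [hB, hwt, Measure.addHaar_closedBall _ _ (by positivity), finrank_euclideanSpace_fin,
        mul_assoc, mul_comm v, ← mul_assoc, ← ENNReal.ofReal_mul (by positivity)]
      refine mul_le_mul_left ?_ _
      refine ENNReal.ofReal_le_ofReal ?_
      nlinarith
    · have hB : Bad p = ∅ := if_neg h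
      rw [hB, measure_empty]
      exact bot_le
  have hU : volume (⋃ p, Bad p) < volume (ball g r) := by
    calc volume (⋃ p, Bad p) ≤ ∑' p, volume (Bad p) := measure_iUnion_le _
      _ ≤ ∑' p : P, ENNReal.ofReal (9 / 4 * r) * v * wt (closedBall g r) p.1 :=
          ENNReal.tsum_le_tsum hBad
      _ = ENNReal.ofReal (9 / 4 * r) * v * ∑' p : P, wt (closedBall g r) p.1 :=
          ENNReal.tsum_mul_left
      _ ≤ ENNReal.ofReal (9 / 4 * r) * v * ENNReal.ofReal (r / 4) := by
          gcongr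
          exact hI.small.le
      _ = ENNReal.ofReal (9 / 16 * r ^ 2) * v := by
          rw [mul_assoc, mul_comm v, ← mul_assoc, ← ENNReal.ofReal_mul (by positivity)]
          congr 2
          ring
      _ < ENNReal.ofReal (r ^ 2) * v := by
          rw [ENNReal.mul_lt_mul_iff_left hv0.ne' hvt]
          rw [ENNReal.ofReal_lt_ofReal_iff (by positivity)]
          nlinarith
      _ = volume (ball g r) := by
          rw [Measure.addHaar_ball _ _ (by positivity), finrank_euclideanSpace_fin]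
  have hae := ae_small hρ
  by_contra hcon
  set Z : Set Plane := {x | ¬ ∀ κ : ℝ, 0 < κ → ∀ᶠ m : ℕ in atTop,
        ρ (closedBall x (5 * (1 / 2) ^ m)) < ENNReal.ofReal (κ * (1 / 4) ^ m)} with hZ
  have hZ0 : volume Z = 0 := hae
  have hsub : ball g r ⊆ (⋃ p, Bad p) ∪ Z := by
    intro x hx
    by_cases hxb : x ∈ ⋃ p, Bad p
    · exact Or.inl hxb
    · right
      intro hgood
      refine hcon ⟨x, hx, ?_, hgood⟩
      intro p hp hne
      by_contra hlt
      apply hxb
      refine mem_iUnion.2 ⟨⟨p, hp⟩, ?_⟩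
      have hB : Bad ⟨p, hp⟩ = closedBall p.1 (3 * p.2) := if_pos hne
      rw [hB, mem_closedBall]
      exact not_lt.1 hlt
  have : volume (ball g r) ≤ volume (⋃ p, Bad p) := by
    calc volume (ball g r) ≤ volume ((⋃ p, Bad p) ∪ Z) := measure_mono hsub
      _ ≤ volume (⋃ p, Bad p) + volume Z := measure_union_le _ _
      _ = volume (⋃ p, Bad p) := by rw [hZ0, add_zero]
  exact absurd hU (not_lt.2 this)


/-- Small covers by discs of positive radius. -/
theorem exists_discs {A : Set Plane} {η : ℝ} (hη : 0 < η) (hA : μH[1] A < ENNReal.ofReal η) :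
    ∃ Q : Set (Plane × ℝ), (∀ p ∈ Q, 0 < p.2) ∧ Q.Countable ∧
      ∑' p : Q, ENNReal.ofReal p.1.2 < ENNReal.ofReal (2 * η) ∧
      A ⊆ ⋃ p ∈ Q, closedBall p.1 p.2 := by
  classical
  rw [Measure.hausdorffMeasure_apply] at hA
  have h1 := (le_iSup₂ (f := fun (r : ℝ≥0∞) (_ : 0 < r) => ⨅ (t : ℕ → Set Plane)
    (_ : A ⊆ ⋃ n, t n) (_ : ∀ n, ediam (t n) ≤ r),
      ∑' n, ⨆ _ : (t n).Nonempty, ediam (t n) ^ (1 : ℝ)) 1 one_pos).trans_lt hA
  simp only [iInf_lt_iff] at h1
  obtain ⟨t, htA, htd, hts⟩ := h1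
  have hdt : ∀ n, ediam (t n) ≠ ∞ := fun n => ne_top_of_le_ne_top ENNReal.one_ne_top (htd n)
  -- the radii
  let ε : ℕ → ℝ := fun n => η / 2 / 2 ^ n
  have hε : ∀ n, 0 < ε n := fun n => by positivity
  let T : ℕ → Set (Plane × ℝ) := fun n =>
    if h : (t n).Nonempty then {(h.choose, (ediam (t n)).toReal + ε n)} else ∅
  refine ⟨⋃ n, T n, ?_, ?_, ?_, ?_⟩
  · intro p hp
    obtain ⟨n, hn⟩ := mem_iUnion.1 hp
    by_cases h : (t n).Nonempty
    · have hT : T n = {(h.choose, (ediam (t n)).toReal + ε n)} := dif_pos h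
      rw [hT, mem_singleton_iff] at hn
      rw [hn]
      exact add_pos_of_nonneg_of_pos ENNReal.toReal_nonneg (hε n)
    · have hT : T n = ∅ := dif_neg h
      rw [hT] at hn
      exact hn.elim
  · refine countable_iUnion fun n => ?_
    by_cases h : (t n).Nonempty
    · have hT : T n = {(h.choose, (ediam (t n)).toReal + ε n)} := dif_pos h
      rw [hT]
      exact countable_singleton _
    · have hT : T n = ∅ := dif_neg h
      rw [hT]
      exact countable_empty
  · have hsum : HasSum ε η := hasSum_geometric_two' η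
    calc ∑' p : (⋃ n, T n), ENNReal.ofReal p.1.2
        ≤ ∑' n, ∑' p : T n, ENNReal.ofReal p.1.2 :=
          ENNReal.tsum_iUnion_le_tsum (fun p : Plane × ℝ => ENNReal.ofReal p.2) T
      _ ≤ ∑' n, ((⨆ _ : (t n).Nonempty, ediam (t n) ^ (1 : ℝ)) + ENNReal.ofReal (ε n)) := by
          refine ENNReal.tsum_le_tsum fun n => ?_
          by_cases h : (t n).Nonempty
          · have hT : T n = {(h.choose, (ediam (t n)).toReal + ε n)} := dif_pos h
            rw [hT, tsum_singleton (f := fun p : Plane × ℝ => ENNReal.ofReal p.2)]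
            simp only
            rw [ENNReal.ofReal_add ENNReal.toReal_nonneg (hε n).le, ENNReal.ofReal_toReal (hdt n)]
            gcongr
            exact le_iSup_of_le h (by rw [ENNReal.rpow_one])
          · have hT : T n = ∅ := dif_neg h
            rw [hT]
            simp
      _ = (∑' n, ⨆ _ : (t n).Nonempty, ediam (t n) ^ (1 : ℝ)) + ∑' n, ENNReal.ofReal (ε n) :=
          ENNReal.tsum_add
      _ < ENNReal.ofReal η + ENNReal.ofReal η := by
          rw [← ENNReal.ofReal_tsum_of_nonneg (fun i => (hε i).le) hsum.summable, hsum.tsum_eq]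
          exact ENNReal.add_lt_add_right ENNReal.ofReal_ne_top hts
      _ = ENNReal.ofReal (2 * η) := by
          rw [← ENNReal.ofReal_add hη.le hη.le, two_mul]
  · intro x hx
    obtain ⟨n, hn⟩ := mem_iUnion.1 (htA hx)
    have h : (t n).Nonempty := ⟨x, hn⟩
    have hT : T n = {(h.choose, (ediam (t n)).toReal + ε n)} := dif_pos h
    refine mem_iUnion₂.2 ⟨(h.choose, (ediam (t n)).toReal + ε n), mem_iUnion.2 ⟨n, ?_⟩, ?_⟩
    · rw [hT]; exact mem_singleton _
    · rw [mem_closedBall]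
      have h2 : dist x h.choose ≤ (ediam (t n)).toReal := by
        rw [dist_edist]
        exact ENNReal.toReal_mono (hdt n) (edist_le_ediam_of_mem hn h.choose_spec)
      have := hε n
      linarith


/-- One step of the construction. -/
theorem step {n : ℕ} {g : Plane} {P : Set (Plane × ℝ)} (hI : Inv n g P) {M : Set Plane}
    (hM : μH[1] M < ∞) :
    ∃ N : ℕ, ∀ m, N ≤ m → ∃ (g' : Plane) (P' : Set (Plane × ℝ)),
      (∃ a b : ℕ, a ≤ 2 ^ m ∧ b ≤ 2 ^ m ∧ g' = gridPoint m a b) ∧ P ⊆ P' ∧ Inv m g' P' ∧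
      closedBall g' ((1 / 4) ^ m) ⊆ closedBall g ((1 / 4) ^ n) ∧
      M ∩ closedBall g' ((1 / 4) ^ m) ⊆ ⋃ p ∈ P', closedBall p.1 p.2 := by
  have hfin1 : IsFiniteMeasure (atomic P) := ⟨by rw [atomic_univ]; exact hI.fin⟩
  have hfin2 : IsFiniteMeasure ((μH[1] : Measure Plane).restrict M) :=
    ⟨by rwa [Measure.restrict_apply_univ]⟩
  have hsing : atomic P + (μH[1] : Measure Plane).restrict M ⟂ₘ volume :=
    (atomic_singular hI.count).add_left (mutuallySingular_restrict hM)
  obtain ⟨x, hxb, hxP, hxs⟩ := exists_center hI hsing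
  have hd : 0 < (1 / 4 : ℝ) ^ n - dist x g := sub_pos.2 hxb
  have h1 : ∀ᶠ m : ℕ in atTop, (3 : ℝ) * (1 / 2) ^ m < (1 / 4) ^ n - dist x g := by
    have h := (tendsto_pow_atTop_nhds_zero_of_lt_one (r := (1 / 2 : ℝ)) (by norm_num)
        (by norm_num)).const_mul 3
    rw [mul_zero] at h
    exact h.eventually (gt_mem_nhds hd)
  obtain ⟨N, hN⟩ := eventually_atTop.1 (h1.and (hxs (1 / 12) (by norm_num)))
  refine ⟨N, fun m hm => ?_⟩
  obtain ⟨hm1, hm2⟩ := hN m hm
  have hq0 : (0 : ℝ) < (1 / 4) ^ m := by positivity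
  have hq : (1 / 4 : ℝ) ^ m ≤ (1 / 2) ^ m := pow_le_pow_left₀ (by norm_num) (by norm_num) m
  obtain ⟨a, b, ha, hb, hdx⟩ := exists_gridPoint m (hI.box x (ball_subset_closedBall hxb))
  have hsub : closedBall (gridPoint m a b) ((1 / 4) ^ m) ⊆ closedBall g ((1 / 4) ^ n) := by
    intro y hy
    rw [mem_closedBall] at hy ⊢
    have h4 : dist y g ≤ dist y (gridPoint m a b) + dist (gridPoint m a b) x + dist x g :=
      dist_triangle4 _ _ _ _
    rw [dist_comm (gridPoint m a b) x] at h4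
    linarith
  have hsub2 : closedBall (gridPoint m a b) ((1 / 4) ^ m) ⊆ closedBall x (5 * (1 / 2) ^ m) := by
    intro y hy
    rw [mem_closedBall] at hy ⊢
    have h4 : dist y x ≤ dist y (gridPoint m a b) + dist (gridPoint m a b) x :=
      dist_triangle _ _ _
    rw [dist_comm (gridPoint m a b) x] at h4
    linarith
  have hA : μH[1] (M ∩ closedBall (gridPoint m a b) ((1 / 4) ^ m)) <
      ENNReal.ofReal (1 / 12 * (1 / 4) ^ m) := by
    refine lt_of_le_of_lt ?_ hm2
    rw [Measure.add_apply]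
    refine le_trans ?_ le_add_self
    rw [Measure.restrict_apply measurableSet_closedBall, inter_comm]
    exact measure_mono (inter_subset_inter_left _ hsub2)
  obtain ⟨Q, hQ0, hQc, hQs, hQM⟩ := exists_discs (by positivity) hA
  have hPw : ∑' p : P, wt (closedBall (gridPoint m a b) ((1 / 4) ^ m)) p.1 <
      ENNReal.ofReal (1 / 12 * (1 / 4) ^ m) := by
    refine lt_of_le_of_lt (tsum_wt_le_atomic hdx ?_) (lt_of_le_of_lt ?_ hm2)
    · intro p hp hne
      exact hxP p hp (hne.mono (inter_subset_inter_right _ hsub))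
    · rw [Measure.add_apply]
      exact le_self_add
  refine ⟨gridPoint m a b, P ∪ Q, ⟨a, b, ha, hb, rfl⟩, subset_union_left, ?_, hsub, ?_⟩
  · refine ⟨?_, hI.count.union hQc, ?_, ?_, ?_⟩
    · rintro p (hp | hp)
      · exact hI.pos p hp
      · exact hQ0 p hp
    · refine (ENNReal.tsum_union_le (fun p : Plane × ℝ => ENNReal.ofReal p.2) P Q).trans_lt ?_
      exact ENNReal.add_lt_top.2 ⟨hI.fin, hQs.trans ENNReal.ofReal_lt_top⟩
    · refine (ENNReal.tsum_union_le (wt (closedBall (gridPoint m a b) ((1 / 4) ^ m))) P Q).trans_lt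
        ?_
      have hQw : ∑' p : Q, wt (closedBall (gridPoint m a b) ((1 / 4) ^ m)) p.1 ≤
          ENNReal.ofReal (2 * (1 / 12 * (1 / 4) ^ m)) :=
        (ENNReal.tsum_le_tsum fun p => wt_le _ _).trans hQs.le
      calc _ < ENNReal.ofReal (1 / 12 * (1 / 4) ^ m) + ENNReal.ofReal (2 * (1 / 12 * (1 / 4) ^ m)) :=
            ENNReal.add_lt_add_of_lt_of_le (ne_top_of_le_ne_top ENNReal.ofReal_ne_top hQw) hPw hQw
        _ = ENNReal.ofReal ((1 / 4) ^ m / 4) := by
            rw [← ENNReal.ofReal_add (by positivity) (by positivity)]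
            congr 1
            ring
    · intro y hy
      exact hI.box y (hsub hy)
  · refine hQM.trans ?_
    exact biUnion_subset_biUnion_left subset_union_right


/-- The states of the construction. -/
structure St where
  /-- number of sets treated so far -/
  k : ℕ
  /-- current level -/
  n : ℕ
  /-- current centre -/
  g : Plane
  /-- current family of discs -/
  P : Set (Plane × ℝ)
  /-- the invariant -/
  inv : Inv n g P

/-- The current disc. -/
def St.disc (s : St) : Set Plane := closedBall s.g ((1 / 4) ^ s.n)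

theorem not_sigmaFinite_qSet {F : Filter ℕ} (hF : IsQFilter F) :
    ¬ IsSigmaFiniteDimOne (qSet F) := by
  rintro ⟨A, hE, hA⟩
  have hM : ∀ k, μH[1] (A k) < ∞ := fun k => (hausdorffMeasure_le _).trans_lt (hA k)
  -- the initial state
  have hI0 : Inv 1 (gridPoint 1 1 1) ∅ := by
    refine ⟨by simp, countable_empty, by simp, by simp, ?_⟩
    intro y hy i
    rw [mem_closedBall, EuclideanSpace.dist_eq, Fin.sum_univ_two] at hy
    have h1 := (Real.sqrt_le_left (by positivity)).1 hy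
    have e0 : (gridPoint 1 1 1).ofLp 0 = 1 / 2 := by simp [gridPoint]
    have e1 : (gridPoint 1 1 1).ofLp 1 = 1 / 2 := by simp [gridPoint]
    simp only [Real.dist_eq, sq_abs, e0, e1] at h1
    fin_cases i
    · show 0 ≤ y.ofLp 0 ∧ y.ofLp 0 ≤ 1
      constructor <;> nlinarith [sq_nonneg (y.ofLp 1 - 1 / 2)]
    · show 0 ≤ y.ofLp 1 ∧ y.ofLp 1 ≤ 1
      constructor <;> nlinarith [sq_nonneg (y.ofLp 0 - 1 / 2)]
  let s0 : St := ⟨0, 1, gridPoint 1 1 1, ∅, hI0⟩
  have hne : Nonempty St := ⟨s0⟩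
  have hstep : ∀ s : St, ∃ N : ℕ, ∀ m, N ≤ m → ∃ s' : St, s'.k = s.k + 1 ∧ s'.n = m ∧
      (∃ a b : ℕ, a ≤ 2 ^ m ∧ b ≤ 2 ^ m ∧ s'.g = gridPoint m a b) ∧ s.P ⊆ s'.P ∧
      s'.disc ⊆ s.disc ∧ A s.k ∩ s'.disc ⊆ ⋃ p ∈ s'.P, closedBall p.1 p.2 := by
    intro s
    obtain ⟨N, hN⟩ := step s.inv (hM s.k)
    refine ⟨N, fun m hm => ?_⟩
    obtain ⟨g', P', h1, h2, h3, h4, h5⟩ := hN m hm
    exact ⟨⟨s.k + 1, m, g', P', h3⟩, rfl, rfl, h1, h2, h4, h5⟩
  choose bd hbd using hstep
  choose! nx hk hn hg hP hsub hcov using hbd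
  obtain ⟨R, hR0, hRs⟩ : ∃ R : ℕ → List St, R 0 = [s0] ∧
      ∀ m, R (m + 1) = R m ++ (R m).map (fun s => nx s m) :=
    ⟨fun m => Nat.rec [s0] (fun m l => l ++ l.map (fun s => nx s m)) m, rfl, fun _ => rfl⟩
  have hRmono : ∀ m m', m ≤ m' → ∀ s ∈ R m, s ∈ R m' := by
    intro m m' h
    induction h with
    | refl => exact fun s hs => hs
    | step _ ih =>
      intro s hs
      rw [hRs]
      exact List.mem_append_left _ (ih s hs)
  have hbound : ∀ l : List St, ∃ b, ∀ s ∈ l, bd s ≤ b := by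
    intro l
    induction l with
    | nil => exact ⟨0, by simp⟩
    | cons a l ih =>
      obtain ⟨b, hb⟩ := ih
      refine ⟨max (bd a) b, ?_⟩
      intro s hs
      rcases List.mem_cons.1 hs with rfl | hs
      · exact le_max_left _ _
      · exact (hb s hs).trans (le_max_right _ _)
  choose f hf using fun m => hbound (R m)
  obtain ⟨e, hemono, heF, he0, hef⟩ := exists_fast hF (fun n => f (n + 1)) (bd s0)
  obtain ⟨S, hS0, hSs⟩ : ∃ S : ℕ → St, S 0 = s0 ∧ ∀ i, S (i + 1) = nx (S i) (e i) :=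
    ⟨fun i => Nat.rec s0 (fun i s => nx s (e i)) i, rfl, fun _ => rfl⟩
  have hmain : ∀ i, S i ∈ R (e i) ∧ bd (S i) ≤ e i := by
    intro i
    induction i with
    | zero =>
      rw [hS0]
      exact ⟨hRmono 0 _ (Nat.zero_le _) _ (by rw [hR0]; exact List.mem_singleton.2 rfl), he0⟩
    | succ i ih =>
      have h1 : S (i + 1) ∈ R (e i + 1) := by
        rw [hSs, hRs]
        exact List.mem_append_right _ (List.mem_map_of_mem ih.1)
      refine ⟨hRmono _ _ (hemono (Nat.lt_succ_self i)) _ h1, ?_⟩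
      exact (hf _ _ h1).trans (hef i)
  have hSk : ∀ i, (S i).k = i := by
    intro i
    induction i with
    | zero => rw [hS0]
    | succ i ih => rw [hSs, hk _ _ (hmain i).2, ih]
  have hSn : ∀ i, (S (i + 1)).n = e i := fun i => by rw [hSs, hn _ _ (hmain i).2]
  have hSg : ∀ i, ∃ a b : ℕ, a ≤ 2 ^ e i ∧ b ≤ 2 ^ e i ∧ (S (i + 1)).g = gridPoint (e i) a b :=
    fun i => by rw [hSs]; exact hg _ _ (hmain i).2
  have hSP : ∀ i, (S i).P ⊆ (S (i + 1)).P := fun i => by rw [hSs]; exact hP _ _ (hmain i).2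
  have hSsub : ∀ i, (S (i + 1)).disc ⊆ (S i).disc := fun i => by
    rw [hSs]; exact hsub _ _ (hmain i).2
  have hScov : ∀ i, A i ∩ (S (i + 1)).disc ⊆ ⋃ p ∈ (S (i + 1)).P, closedBall p.1 p.2 := by
    intro i
    have := hcov _ _ (hmain i).2
    rw [← hSs, hSk] at this
    exact this
  have hSPmono : ∀ i j, i ≤ j → (S i).P ⊆ (S j).P := by
    intro i j h
    induction h with
    | refl => exact Subset.rfl
    | step _ ih => exact ih.trans (hSP _)
  obtain ⟨x, hx⟩ := IsCompact.nonempty_iInter_of_sequence_nonempty_isCompact_isClosed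
    (fun i => (S i).disc) hSsub
    (fun i => ⟨(S i).g, mem_closedBall_self (by positivity)⟩)
    (isCompact_closedBall _ _) (fun i => isClosed_closedBall)
  rw [mem_iInter] at hx
  have hxF : x ∈ qSet F := by
    refine mem_of_superset heF ?_
    rintro _ ⟨i, rfl⟩
    obtain ⟨a, b, ha, hb, h⟩ := hSg i
    refine ⟨a, b, ha, hb, ?_⟩
    have h1 : x ∈ closedBall (S (i + 1)).g ((1 / 4) ^ (S (i + 1)).n) := hx (i + 1)
    rw [hSn, h] at h1
    exact h1
  rw [hE] at hxF
  obtain ⟨k, hxk⟩ := mem_iUnion.1 hxF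
  obtain ⟨p, hp, hxp⟩ := mem_iUnion₂.1 (hScov k ⟨hxk, hx (k + 1)⟩)
  have hp0 : 0 < p.2 := (S (k + 1)).inv.pos p hp
  have hlt : ∀ i, k ≤ i → p.2 < (1 / 4) ^ e i / 4 := by
    intro i hi
    have hpi : p ∈ (S (i + 1)).P := hSPmono _ _ (by omega) hp
    have h1 := (ENNReal.le_tsum (f := fun q : (S (i + 1)).P =>
      wt (closedBall (S (i + 1)).g ((1 / 4) ^ (S (i + 1)).n)) q.1) ⟨p, hpi⟩).trans_lt
      (S (i + 1)).inv.small
    have h2 : wt (closedBall (S (i + 1)).g ((1 / 4) ^ (S (i + 1)).n)) p = ENNReal.ofReal p.2 := by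
      unfold wt
      rw [if_pos ⟨x, hxp, hx (i + 1)⟩]
    simp only [h2] at h1
    rw [hSn] at h1
    exact (ENNReal.ofReal_lt_ofReal_iff (by positivity)).1 h1
  have hlim : Tendsto (fun i => (1 / 4 : ℝ) ^ e i / 4) atTop (𝓝 (0 / 4)) :=
    ((tendsto_pow_atTop_nhds_zero_of_lt_one (r := (1 / 4 : ℝ)) (by norm_num)
      (by norm_num)).comp hemono.tendsto_atTop).div_const 4
  rw [zero_div] at hlim
  obtain ⟨i, hi1, hi2⟩ := ((hlim.eventually (gt_mem_nhds hp0)).and (eventually_ge_atTop k)).exists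
  exact absurd (hlt i hi2) (not_lt.2 hi1.le)

/-- For every `Q`-filter `F` on the natural numbers, in particular for every `Q`-point and every
Ramsey ultrafilter, the set of the points of the plane which for `F`-almost all `n` are
`4^(-n)`-close to the grid `2^(-n) ℤ² ∩ [0,1]²` is a `B`-set. -/
theorem result (F : Filter ℕ) (hF : IsQFilter F) : IsBSet (qSet F) :=
  ⟨not_sigmaFinite_qSet hF, fun _ hφ hs => null_part hF hφ hs⟩

end Pool.Agent.Results.MP_820503_lc.QPointBSet
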